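import Mathlib

/-!
# Modules and strong modules of an edge labelling: definitions
-/

set_option autoImplicit false
set_option linter.unusedSectionVars false
set_option linter.unusedVariables false

namespace Pool.Agent.Helper97.MD

open Set

variable {M A : Type}

/-- The label of a pair determines the label of the reversed pair. -/
def Rev (τ : M → M → A) : Prop := ∀ x y x' y', τ x y = τ x' y' → τ y x = τ y' x'

/-- `X` is a module: an element outside `X` does not distinguish elements of `X`. -/
def IsModule (τ : M → M → A) (X : Set M) : Prop :=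
  ∀ z, z ∉ X → ∀ x ∈ X, ∀ x' ∈ X, τ z x = τ z x'

/-- A strong module is a module which does not overlap any module. -/
def IsStrong (τ : M → M → A) (X : Set M) : Prop :=
  IsModule τ X ∧ ∀ Y, IsModule τ Y → (X ∩ Y).Nonempty → X ⊆ Y ∨ Y ⊆ X

/-- the least module containing `x` and `y` -/
def mdl (τ : M → M → A) (x y : M) : Set M :=
  {z | ∀ X, IsModule τ X → x ∈ X → y ∈ X → z ∈ X}

/-- the least strong module containing `x` and `y` -/
def node (τ : M → M → A) (x y : M) : Set M :=
  {z | ∀ X, IsStrong τ X → x ∈ X → y ∈ X → z ∈ X}

/-- A complete node: all pairs in different children have the same label. (Elements `u`, `v` of a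
strong module `P` lie in different children of `P` when `node τ u v = P`.) -/
def IsComplete (τ : M → M → A) (P : Set M) : Prop :=
  ∃ a, ∀ u v, node τ u v = P → τ u v = a

/-- A linear node: the label `a` is a linear order of the children. -/
def IsLinear (τ : M → M → A) (P : Set M) (a : A) : Prop :=
  (∀ u v, node τ u v = P → (τ u v = a ∧ τ v u ≠ a) ∨ (τ v u = a ∧ τ u v ≠ a)) ∧
  ∀ u v w, node τ u v = P → node τ v w = P → τ u v = a → τ v w = a →
    node τ u w = P ∧ τ u w = a

/-- `R` contains exactly one element of each child of `P` -/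
def IsTransversal (τ : M → M → A) (P R : Set M) : Prop :=
  R ⊆ P ∧ ∀ z ∈ P, ∃ r ∈ R, node τ z r ≠ P ∧ ∀ r' ∈ R, node τ z r' ≠ P → r' = r

/-- `R` has no nontrivial module (a module of the labelling restricted to `R`) -/
def IsPrim (τ : M → M → A) (R : Set M) : Prop :=
  ∀ X ⊆ R, (∀ z ∈ R, z ∉ X → ∀ x ∈ X, ∀ x' ∈ X, τ z x = τ z x') → X.Subsingleton ∨ X = R

end Pool.Agent.Helper97.MD
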